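import Pool.Agent.X84.Hyp.Taylor
import Pool.Agent.TH539.SAThin

/-!
# Hypersurfaces: thin slabs
-/

set_option autoImplicit false

open MeasureTheory Set Metric
open scoped ENNReal

namespace Pool.Agent.X84.Hyp

variable {m : ℕ}

/-- Mean value inequality in the direction of a coordinate. -/
theorem mono_dir {g : (Fin (m + 1) → ℝ) → ℝ} {l : Fin (m + 1)} {x₀ : Fin (m + 1) → ℝ} {ρ c : ℝ}
    (hg : ∀ y ∈ closedBall x₀ ρ, DifferentiableAt ℝ g y)
    (hc : ∀ y ∈ closedBall x₀ ρ, c ≤ fderiv ℝ g y (Pi.single l 1))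
    (y : Fin (m + 1) → ℝ) {a b : ℝ} (hab : a ≤ b) (ha : Function.update y l a ∈ closedBall x₀ ρ)
    (hb : Function.update y l b ∈ closedBall x₀ ρ) :
    c * (b - a) ≤ g (Function.update y l b) - g (Function.update y l a) := by
  have hmem : ∀ τ ∈ Icc a b, Function.update y l τ ∈ closedBall x₀ ρ := by
    intro τ hτ
    have hρ : 0 ≤ ρ := dist_nonneg.trans (mem_closedBall.1 ha)
    rw [mem_closedBall, dist_pi_le_iff hρ] at ha hb ⊢
    intro j
    by_cases hj : j = l
    · subst hj
      have h1 := ha j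
      have h2 := hb j
      rw [Function.update_self, Real.dist_eq, abs_le] at h1 h2 ⊢
      constructor
      · linarith [h1.1, hτ.1]
      · linarith [h2.2, hτ.2]
    · have h1 := ha j
      rw [Function.update_of_ne hj] at h1 ⊢
      exact h1
  have hder : ∀ τ ∈ Icc a b, HasDerivAt (fun τ => g (Function.update y l τ))
      (fderiv ℝ g (Function.update y l τ) (Pi.single l 1)) τ := by
    intro τ hτ
    have h1 := (hg _ (hmem τ hτ)).hasFDerivAt
    exact h1.comp_hasDerivAt τ (hasDerivAt_update y l τ)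
  have h := (convex_Icc a b).mul_sub_le_image_sub_of_le_deriv
    (f := fun τ => g (Function.update y l τ)) (C := c)
    (fun τ hτ => (hder τ hτ).continuousAt.continuousWithinAt)
    (fun τ hτ => (hder τ (interior_subset hτ)).differentiableAt.differentiableWithinAt)
    (fun τ hτ => by
      rw [(hder τ (interior_subset hτ)).deriv]
      exact hc _ (hmem τ (interior_subset hτ)))
    a ⟨le_rfl, hab⟩ b ⟨hab, le_rfl⟩ hab
  exact h

/-- Points of the hypersurface with close coordinates, except the number `l`, are close. -/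
theorem close_of_close {g : (Fin (m + 1) → ℝ) → ℝ} {l : Fin (m + 1)} {x₀ : Fin (m + 1) → ℝ}
    {ρ c G : ℝ} (hc0 : 0 < c) (hg : ∀ y ∈ closedBall x₀ ρ, DifferentiableAt ℝ g y)
    (hc : ∀ y ∈ closedBall x₀ ρ, c ≤ fderiv ℝ g y (Pi.single l 1))
    (hG : ∀ y ∈ closedBall x₀ ρ, ‖fderiv ℝ g y‖ ≤ G) {x y : Fin (m + 1) → ℝ}
    (hx : x ∈ closedBall x₀ ρ) (hy : y ∈ closedBall x₀ ρ) (hxy : g x = g y) {s : ℝ} (hs0 : 0 ≤ s)
    (hs : ∀ j, j ≠ l → |x j - y j| ≤ s) : ‖x - y‖ ≤ (1 + G / c) * s := by
  have hG0 : 0 ≤ G := (norm_nonneg _).trans (hG x hx)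
  have hρ : 0 ≤ ρ := dist_nonneg.trans (mem_closedBall.1 hx)
  have hx' : Function.update y l (x l) ∈ closedBall x₀ ρ := by
    rw [mem_closedBall, dist_pi_le_iff hρ] at hx hy ⊢
    intro j
    by_cases hj : j = l
    · subst hj
      rw [Function.update_self]
      exact hx j
    · rw [Function.update_of_ne hj]
      exact hy j
  have hy' : Function.update y l (y l) ∈ closedBall x₀ ρ := by
    rw [Function.update_eq_self]
    exact hy
  have h1 : ‖x - Function.update y l (x l)‖ ≤ s := by
    rw [pi_norm_le_iff_of_nonneg hs0]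
    intro j
    by_cases hj : j = l
    · subst hj
      rw [Pi.sub_apply, Function.update_self, sub_self, norm_zero]
      exact hs0
    · rw [Pi.sub_apply, Function.update_of_ne hj, Real.norm_eq_abs]
      exact hs j hj
  have h2 : |g x - g (Function.update y l (x l))| ≤ G * s := by
    have h3 := (convex_closedBall x₀ ρ).norm_image_sub_le_of_norm_fderiv_le (𝕜 := ℝ) (f := g)
      (C := G) hg hG hx' hx
    rw [Real.norm_eq_abs] at h3
    exact h3.trans (mul_le_mul_of_nonneg_left h1 hG0)
  have h4 : c * |x l - y l| ≤ G * s := by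
    rcases le_total (y l) (x l) with h | h
    · have h5 := mono_dir hg hc y h hy' hx'
      rw [Function.update_eq_self, ← hxy] at h5
      rw [abs_of_nonneg (by linarith)]
      have := (abs_le.1 h2).1
      linarith
    · have h5 := mono_dir hg hc y h hx' hy'
      rw [Function.update_eq_self, ← hxy] at h5
      rw [abs_of_nonpos (by linarith)]
      have := (abs_le.1 h2).2
      linarith
  have h6 : |x l - y l| ≤ G / c * s := by
    rw [div_mul_eq_mul_div, le_div_iff₀ hc0]
    linarith
  have h7 : 0 ≤ G / c * s := by positivity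
  rw [pi_norm_le_iff_of_nonneg (by positivity)]
  intro j
  rw [Pi.sub_apply, Real.norm_eq_abs]
  by_cases hj : j = l
  · subst hj
    linarith
  · have := hs j hj
    linarith

/-- The volume of the slab `|g| ≤ η`. -/
theorem vol_slab {g : (Fin (m + 1) → ℝ) → ℝ} {l : Fin (m + 1)} {x₀ : Fin (m + 1) → ℝ}
    {ρ c : ℝ} (hc0 : 0 < c) (hg : ∀ y ∈ closedBall x₀ ρ, DifferentiableAt ℝ g y)
    (hc : ∀ y ∈ closedBall x₀ ρ, c ≤ fderiv ℝ g y (Pi.single l 1)) {x : Fin (m + 1) → ℝ}
    {s η : ℝ} (hs : 0 ≤ s) (hη : 0 ≤ η) (hsub : closedBall x s ⊆ closedBall x₀ ρ) :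
    volume {y | y ∈ closedBall x s ∧ |g y| ≤ η} ≤ ENNReal.ofReal ((2 * s) ^ m * (4 * η / c)) := by
  obtain ⟨S, hS⟩ : ∃ S : Set (Fin (m + 1) → ℝ), S = {y | y ∈ closedBall x s ∧ |g y| ≤ η} := ⟨_, rfl⟩
  have hgc : ContinuousOn g (closedBall x s) := fun y hy =>
    (hg y (hsub hy)).continuousAt.continuousWithinAt
  have hScl : IsClosed S := by
    have h1 : S = closedBall x s ∩ (fun y => |g y|) ⁻¹' Iic η := by
      rw [hS]; rfl
    rw [h1]
    exact (hgc.abs).preimage_isClosed_of_isClosed isClosed_closedBall isClosed_Iic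
  rw [← hS]
  have hmp := volume_preserving_piFinSuccAbove (fun _ : Fin (m + 1) => ℝ) l
  obtain ⟨e, he⟩ : ∃ e, e = MeasurableEquiv.piFinSuccAbove (fun _ : Fin (m + 1) => ℝ) l := ⟨_, rfl⟩
  rw [← he] at hmp
  have h1 : volume S = volume (e.symm ⁻¹' S) := by
    rw [← hmp.measure_preimage_equiv, ← preimage_comp]
    simp
  have hSm : MeasurableSet (e.symm ⁻¹' S) := e.symm.measurable hScl.measurableSet
  have h2 : (volume : Measure (ℝ × (Fin m → ℝ))) = (volume : Measure ℝ).prod volume := rfl
  rw [h1, h2, Measure.prod_apply_symm hSm]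
  obtain ⟨x', hx'⟩ : ∃ x' : Fin m → ℝ, x' = fun j => x (l.succAbove j) := ⟨_, rfl⟩
  have hesymm : ∀ (τ : ℝ) (y' : Fin m → ℝ), e.symm (τ, y') = l.insertNth τ y' := by
    intro τ y'
    rw [he]; rfl
  have hmemB : ∀ (τ : ℝ) (y' : Fin m → ℝ), l.insertNth τ y' ∈ closedBall x s → y' ∈ closedBall x' s := by
    intro τ y' h
    rw [mem_closedBall, dist_pi_le_iff hs] at h ⊢
    intro j
    have := h (l.succAbove j)
    rw [Fin.insertNth_apply_succAbove] at this
    rw [hx']
    exact this
  have hsec : ∀ y' : Fin m → ℝ, volume ((fun τ : ℝ => (τ, y')) ⁻¹' (e.symm ⁻¹' S)) ≤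
      (closedBall x' s).indicator (fun _ => ENNReal.ofReal (4 * η / c)) y' := by
    intro y'
    rcases ((fun τ : ℝ => (τ, y')) ⁻¹' (e.symm ⁻¹' S)).eq_empty_or_nonempty with h0 | ⟨τ₀, hτ₀⟩
    · rw [h0, measure_empty]
      exact zero_le
    · have h3 : l.insertNth τ₀ y' ∈ S := by
        have h4 : e.symm (τ₀, y') ∈ S := hτ₀
        rwa [hesymm] at h4
      rw [hS] at h3
      rw [indicator_of_mem (hmemB τ₀ y' h3.1)]
      have h5 : ((fun τ : ℝ => (τ, y')) ⁻¹' (e.symm ⁻¹' S)) ⊆ Icc (τ₀ - 2 * η / c) (τ₀ + 2 * η / c) := by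
        intro τ hτ
        have h6 : l.insertNth τ y' ∈ S := by
          have h4 : e.symm (τ, y') ∈ S := hτ
          rwa [hesymm] at h4
        rw [hS] at h6
        have h7 : ∀ τ' : ℝ, Function.update (l.insertNth τ₀ y' : Fin (m + 1) → ℝ) l τ' =
            l.insertNth τ' y' := fun τ' =>
          Fin.update_insertNth (α := fun _ => ℝ) l τ₀ τ' y'
        have h8 := abs_le.1 h3.2
        have h9 := abs_le.1 h6.2
        have h10 : 2 * η / c * c = 2 * η := by field_simp
        rcases le_total τ₀ τ with h | h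
        · have h11 := mono_dir hg hc (l.insertNth τ₀ y' : Fin (m + 1) → ℝ) h
            (by rw [h7]; exact hsub h3.1) (by rw [h7]; exact hsub h6.1)
          rw [h7, h7] at h11
          have h12 : (τ - τ₀) * c ≤ 2 * η / c * c := by rw [h10]; linarith
          have h13 := le_of_mul_le_mul_right h12 hc0
          have h14 : 0 ≤ 2 * η / c := by positivity
          constructor <;> linarith
        · have h11 := mono_dir hg hc (l.insertNth τ₀ y' : Fin (m + 1) → ℝ) h
            (by rw [h7]; exact hsub h6.1) (by rw [h7]; exact hsub h3.1)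
          rw [h7, h7] at h11
          have h12 : (τ₀ - τ) * c ≤ 2 * η / c * c := by rw [h10]; linarith
          have h13 := le_of_mul_le_mul_right h12 hc0
          have h14 : 0 ≤ 2 * η / c := by positivity
          constructor <;> linarith
      refine (measure_mono h5).trans ?_
      rw [Real.volume_Icc]
      apply ENNReal.ofReal_le_ofReal
      apply le_of_eq
      ring
  refine (lintegral_mono hsec).trans ?_
  rw [lintegral_indicator_const isClosed_closedBall.measurableSet, Real.volume_pi_closedBall _ hs,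
    Fintype.card_fin, ← ENNReal.ofReal_mul (by positivity), mul_comm]

/-- The slab of a polynomial in a cube is a basic semialgebraic set. -/
theorem basic_slab {k : ℕ} (P : MvPolynomial (Fin (m + 1)) ℝ) (hP : P.totalDegree ≤ k)
    (x : Fin (m + 1) → ℝ) {s η : ℝ} (hs : 0 < s) (hη : 0 < η) :
    Pool.Agent.TH539.SA.Basic (2 * k + 2 * (m + 1))
      {y : Fin (m + 1) → ℝ | (∀ j, |y j - x j| < s) ∧ |MvPolynomial.eval y P| < η} := by
  refine ⟨m + 2, 0, Fin.cons (MvPolynomial.C (η ^ 2) - P ^ 2) (fun j =>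
    MvPolynomial.C (s ^ 2) - (MvPolynomial.X j - MvPolynomial.C (x j)) ^ 2), Fin.elim0, ?_, ?_⟩
  · rw [Fin.sum_univ_succ]
    simp only [Fin.cons_zero, Fin.cons_succ, Finset.univ_eq_empty, Finset.sum_empty, add_zero]
    have h1 : (MvPolynomial.C (η ^ 2) - P ^ 2 : MvPolynomial (Fin (m + 1)) ℝ).totalDegree ≤ 2 * k := by
      refine (MvPolynomial.totalDegree_sub _ _).trans ?_
      rw [MvPolynomial.totalDegree_C]
      refine max_le (Nat.zero_le _) ((MvPolynomial.totalDegree_pow _ _).trans ?_)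
      exact Nat.mul_le_mul_left 2 hP
    have h2 : ∀ j : Fin (m + 1), (MvPolynomial.C (s ^ 2) -
        (MvPolynomial.X j - MvPolynomial.C (x j)) ^ 2 :
        MvPolynomial (Fin (m + 1)) ℝ).totalDegree ≤ 2 := by
      intro j
      refine (MvPolynomial.totalDegree_sub _ _).trans ?_
      rw [MvPolynomial.totalDegree_C]
      refine max_le (Nat.zero_le _) ((MvPolynomial.totalDegree_pow _ _).trans ?_)
      have h3 : (MvPolynomial.X j - MvPolynomial.C (x j) :
          MvPolynomial (Fin (m + 1)) ℝ).totalDegree ≤ 1 := by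
        refine (MvPolynomial.totalDegree_sub _ _).trans ?_
        rw [MvPolynomial.totalDegree_C, MvPolynomial.totalDegree_X]
        simp
      omega
    refine Nat.add_le_add h1 ((Finset.sum_le_sum fun j _ => h2 j).trans ?_)
    simp [mul_comm]
  · ext y
    simp only [mem_ofPred_eq]
    constructor
    · rintro ⟨h1, h2⟩
      refine ⟨fun i => ?_, fun j => j.elim0⟩
      refine Fin.cases ?_ (fun j => ?_) i
      · rw [Fin.cons_zero]
        simp only [map_sub, MvPolynomial.eval_C, map_pow]
        have := sq_lt_sq' (abs_lt.1 h2).1 (abs_lt.1 h2).2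
        linarith
      · rw [Fin.cons_succ]
        simp only [map_sub, MvPolynomial.eval_C, map_pow, MvPolynomial.eval_X]
        have := sq_lt_sq' (abs_lt.1 (h1 j)).1 (abs_lt.1 (h1 j)).2
        linarith
    · rintro ⟨h1, -⟩
      refine ⟨fun j => ?_, ?_⟩
      · have h3 := h1 (Fin.succ j)
        rw [Fin.cons_succ] at h3
        simp only [map_sub, MvPolynomial.eval_C, map_pow, MvPolynomial.eval_X] at h3
        exact abs_lt_of_sq_lt_sq (by linarith) hs.le
      · have h3 := h1 0
        rw [Fin.cons_zero] at h3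
        simp only [map_sub, MvPolynomial.eval_C, map_pow] at h3
        exact abs_lt_of_sq_lt_sq (by linarith) hη.le

end Pool.Agent.X84.Hyp
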