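import Pool.Agent.X84.Hyp.Null
import Pool.Agent.Y674.HK.Haus

/-!
# Countable unions of hypersurfaces and lines
-/

set_option autoImplicit false

open MeasureTheory Set Metric Filter Topology
open scoped ENNReal

namespace Pool.Agent.X84.Hyp

/-- The regular part of the zero set of `g` in `O`. -/
def Reg {E : Type*} [NormedAddCommGroup E] [NormedSpace ℝ E] (O : Set E) (g : E → ℝ) : Set E :=
  {x | x ∈ O ∧ g x = 0 ∧ fderiv ℝ g x ≠ 0}

/-- `A` is contained in a countable union of hypersurfaces of class `C^k`. -/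
def ManyHyp {E : Type*} [NormedAddCommGroup E] [NormedSpace ℝ E] (k : ℕ) (A : Set E) : Prop :=
  ∃ (O : ℕ → Set E) (g : ℕ → E → ℝ), (∀ j, IsOpen (O j) ∧ ContDiffOn ℝ k (g j) (O j)) ∧
    A ⊆ ⋃ j, Reg (O j) (g j)

section coord

variable {m : ℕ}

theorem exists_dir {L : (Fin (m + 1) → ℝ) →L[ℝ] ℝ} (hL : L ≠ 0) :
    ∃ l, L (Pi.single l 1) ≠ 0 := by
  by_contra hcon
  push Not at hcon
  apply hL
  ext v
  have h1 : v = ∑ a : Fin (m + 1), (v a) • (Pi.single a (1 : ℝ) : Fin (m + 1) → ℝ) := by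
    ext b
    simp [Finset.sum_apply, Pi.single_apply]
  rw [h1, map_sum]
  simp only [map_smul, hcon, smul_zero, Finset.sum_const_zero, zero_apply]

theorem continuousAt_fderiv {E : Type*} [NormedAddCommGroup E] [NormedSpace ℝ E] {k : ℕ}
    (hk : 1 ≤ k) {g : E → ℝ} {x : E} (h : ContDiffAt ℝ k g x) : ContinuousAt (fderiv ℝ g) x := by
  have h1 : ContDiffAt ℝ 1 g x := h.of_le (by exact_mod_cast hk)
  have h2 : ContDiffAt ℝ 0 (fderiv ℝ g) x := h1.fderiv_right (by norm_num)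
  exact h2.continuousAt

theorem exists_piece (hm : 1 ≤ m) {O : Set (Fin (m + 1) → ℝ)} {g : (Fin (m + 1) → ℝ) → ℝ}
    (hO : IsOpen O) (hg : ContDiffOn ℝ m g O) {x : Fin (m + 1) → ℝ} (hx : x ∈ Reg O g) :
    ∃ P : Pc m, P.M ∈ 𝓝[Reg O g] x := by
  obtain ⟨hxO, hgx, hdx⟩ := hx
  obtain ⟨l, hl⟩ := exists_dir hdx
  have hcd : ∀ y ∈ O, ContDiffAt ℝ m g y := fun y hy => hg.contDiffAt (hO.mem_nhds hy)
  -- the sign
  obtain ⟨σ, hσ0, hσ⟩ : ∃ σ : ℝ, σ ≠ 0 ∧ 0 < σ * fderiv ℝ g x (Pi.single l 1) := by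
    rcases lt_or_gt_of_ne hl with h | h
    · exact ⟨-1, by norm_num, by linarith⟩
    · exact ⟨1, one_ne_zero, by linarith⟩
  have hfd : ∀ y ∈ O, fderiv ℝ (fun z => σ * g z) y = σ • fderiv ℝ g y := by
    intro y hy
    have h1 : DifferentiableAt ℝ g y := (hcd y hy).differentiableAt (by
      have : m ≠ 0 := by omega
      exact_mod_cast this)
    exact fderiv_const_mul h1 σ
  have hcont : ContinuousAt (fun y => σ * fderiv ℝ g y (Pi.single l 1)) x := by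
    have h1 := continuousAt_fderiv hm (hcd x hxO)
    have h2 : ContinuousAt (fun y => fderiv ℝ g y (Pi.single l 1)) x :=
      h1.clm_apply continuousAt_const
    exact continuousAt_const.mul h2
  have hnb : {y | y ∈ O ∧ (σ * fderiv ℝ g x (Pi.single l 1)) / 2 <
      σ * fderiv ℝ g y (Pi.single l 1)} ∈ 𝓝 x := by
    refine Filter.inter_mem (hO.mem_nhds hxO) ?_
    exact hcont.eventually (lt_mem_nhds (by linarith))
  obtain ⟨R, hR, hRsub⟩ := Metric.nhds_basis_closedBall.mem_iff.1 hnb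
  have h2R : 2 * (R / 2) = R := by ring
  refine ⟨⟨fun z => σ * g z, l, x, R / 2, (σ * fderiv ℝ g x (Pi.single l 1)) / 2, by linarith,
    by linarith, ?_, ?_⟩, ?_⟩
  · intro y hy
    rw [h2R] at hy
    exact contDiffAt_const.mul (hcd y (hRsub hy).1)
  · intro y hy
    rw [h2R] at hy
    obtain ⟨h1, h2⟩ := hRsub hy
    rw [hfd y h1]
    exact h2.le
  · rw [mem_nhdsWithin_iff_exists_mem_nhds_inter]
    refine ⟨closedBall x (R / 2), closedBall_mem_nhds x (by linarith), ?_⟩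
    rintro y ⟨hy1, -, hy2, -⟩
    exact ⟨hy1, by change σ * g y = 0; rw [hy2, mul_zero]⟩

theorem exists_pieces (hm : 1 ≤ m) {A : Set (Fin (m + 1) → ℝ)} (hA : ManyHyp m A) :
    ∃ (ι : Type) (_ : Countable ι) (P : ι → Pc m), A ⊆ ⋃ i, (P i).M := by
  obtain ⟨O, g, hOg, hA⟩ := hA
  have h1 : ∀ j, ∃ T : Set (Fin (m + 1) → ℝ), ∃ P : (Fin (m + 1) → ℝ) → Option (Pc m),
      T.Countable ∧ Reg (O j) (g j) ⊆ ⋃ x ∈ T, {y | ∃ Q, P x = some Q ∧ y ∈ Q.M} := by
    intro j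
    have h2 : ∀ x : Fin (m + 1) → ℝ, ∃ P : Option (Pc m), x ∈ Reg (O j) (g j) →
        {y | ∃ Q, P = some Q ∧ y ∈ Q.M} ∈ 𝓝[Reg (O j) (g j)] x := by
      intro x
      by_cases hx : x ∈ Reg (O j) (g j)
      · obtain ⟨P, hP⟩ := exists_piece hm (hOg j).1 (hOg j).2 hx
        refine ⟨some P, fun _ => ?_⟩
        refine Filter.mem_of_superset hP fun y hy => ⟨P, rfl, hy⟩
      · exact ⟨none, fun h => absurd h hx⟩
    choose P hP using h2
    obtain ⟨T, -, hTc, hT⟩ := TopologicalSpace.countable_cover_nhdsWithin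
      (f := fun x => {y | ∃ Q, P x = some Q ∧ y ∈ Q.M}) (s := Reg (O j) (g j)) hP
    exact ⟨T, P, hTc, hT⟩
  choose T P hTc hT using h1
  have hc : ∀ j, Countable (T j) := fun j => (hTc j).to_subtype
  refine ⟨{z : Σ j : ℕ, T j // ∃ Q, P z.1 z.2 = some Q}, inferInstance, fun z => z.2.choose, ?_⟩
  intro y hy
  obtain ⟨j, hj⟩ := mem_iUnion.1 (hA hy)
  obtain ⟨x, hx, Q, hQ, hyQ⟩ := mem_iUnion₂.1 (hT j hj)
  refine mem_iUnion.2 ⟨⟨⟨j, ⟨x, hx⟩⟩, Q, hQ⟩, ?_⟩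
  have h3 : ∃ Q, P j x = some Q := ⟨Q, hQ⟩
  have h4 : h3.choose = Q := by
    exact Option.some.inj (h3.choose_spec.symm.trans hQ)
  change y ∈ (h3.choose).M
  rw [h4]
  exact hyQ

/-- **Lines meeting `d + 1` countable unions of hypersurfaces of class `C^(d-1)`.** -/
theorem hyp_vel (hm : 1 ≤ m) {t : Fin (m + 2) → ℝ} (ht : Function.Injective t)
    {A : Fin (m + 2) → Set (Fin (m + 1) → ℝ)} (hA : ∀ i, ManyHyp m (A i)) :
    volume {v : Fin (m + 1) → ℝ | ∃ q : Fin (m + 1) → ℝ, ∀ i, q + t i • v ∈ A i} = 0 := by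
  have h1 := fun i => exists_pieces hm (hA i)
  choose ι hι P hP using h1
  have hsub : {v : Fin (m + 1) → ℝ | ∃ q : Fin (m + 1) → ℝ, ∀ i, q + t i • v ∈ A i} ⊆
      ⋃ f : (∀ i, ι i), {v : Fin (m + 1) → ℝ | ∃ q : Fin (m + 1) → ℝ,
        ∀ i, q + t i • v ∈ (P i (f i)).M} := by
    rintro v ⟨q, hq⟩
    have : ∀ i, ∃ j, q + t i • v ∈ (P i j).M := fun i => mem_iUnion.1 (hP i (hq i))
    choose f hf using this
    exact mem_iUnion.2 ⟨f, q, hf⟩
  exact measure_mono_null hsub (measure_iUnion_null fun f => null_pieces hm ht _)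

end coord

end Pool.Agent.X84.Hyp
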