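import Pool.Agent.X84.Hyp.Geo

/-!
# Lines meeting `d + 1` hypersurfaces of class `C^(d-1)` at given heights
-/

set_option autoImplicit false

open MeasureTheory Set Metric Filter Topology
open scoped ENNReal

namespace Pool.Agent.X84.Hyp

open Pool.Agent.TH539.SA (Basic lamB wt basic_vel')

variable {m : ℕ}

/-- A small piece of a hypersurface, transversal to a coordinate direction. -/
structure Pc (m : ℕ) where
  g : (Fin (m + 1) → ℝ) → ℝ
  l : Fin (m + 1)
  x₀ : Fin (m + 1) → ℝ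
  ρ : ℝ
  c : ℝ
  hρ : 0 < ρ
  hc0 : 0 < c
  hg : ∀ y ∈ closedBall x₀ (2 * ρ), ContDiffAt ℝ m g y
  hc : ∀ y ∈ closedBall x₀ (2 * ρ), c ≤ fderiv ℝ g y (Pi.single l 1)

/-- the set of points of a piece -/
def Pc.M (P : Pc m) : Set (Fin (m + 1) → ℝ) := {x | x ∈ closedBall P.x₀ P.ρ ∧ P.g x = 0}

theorem Pc.sub (P : Pc m) : closedBall P.x₀ P.ρ ⊆ closedBall P.x₀ (2 * P.ρ) :=
  closedBall_subset_closedBall (by linarith [P.hρ])

theorem Pc.diff (P : Pc m) (hm : 1 ≤ m) : ∀ y ∈ closedBall P.x₀ (2 * P.ρ), DifferentiableAt ℝ P.g y :=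
  fun y hy => (P.hg y hy).differentiableAt (by
    have : m ≠ 0 := by omega
    exact_mod_cast this)

theorem Pc.exists_bound (P : Pc m) (hm : 1 ≤ m) :
    ∃ G : ℝ, ∀ y ∈ closedBall P.x₀ (2 * P.ρ), ‖fderiv ℝ P.g y‖ ≤ G := by
  refine (isCompact_closedBall P.x₀ (2 * P.ρ)).exists_bound_of_continuousOn fun y hy => ?_
  have h1 : ContDiffAt ℝ 1 P.g y := (P.hg y hy).of_le (by exact_mod_cast hm)
  have h2 : ContDiffAt ℝ 0 (fderiv ℝ P.g) y := h1.fderiv_right (by norm_num)
  exact h2.continuousAt.continuousWithinAt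

theorem Pc.slab (P : Pc m) (hm : 1 ≤ m) {ε : ℝ} (hε : 0 < ε) :
    ∃ δ : ℝ, 0 < δ ∧ ∀ x ∈ P.M, ∀ s : ℝ, 0 < s → s ≤ δ → ∃ S : Set (Fin (m + 1) → ℝ),
      Basic (2 * m + 2 * (m + 1)) S ∧ (∀ y ∈ P.M, ‖y - x‖ < s → y ∈ S) ∧
      volume S ≤ ENNReal.ofReal ((2 * s) ^ m * (4 * (3 * ε * s ^ m) / P.c)) := by
  have hcont : ContinuousOn (iteratedFDeriv ℝ m P.g) (closedBall P.x₀ (2 * P.ρ)) := fun y hy =>
    ((P.hg y hy).continuousAt_iteratedFDeriv le_rfl).continuousWithinAt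
  have huc := (isCompact_closedBall P.x₀ (2 * P.ρ)).uniformContinuousOn_of_continuous hcont
  rw [Metric.uniformContinuousOn_iff_le] at huc
  obtain ⟨δ, hδ, h⟩ := huc ε hε
  refine ⟨min δ P.ρ, lt_min hδ P.hρ, ?_⟩
  rintro x ⟨hx, hgx⟩ s hs hsδ
  have hsub : closedBall x s ⊆ closedBall P.x₀ (2 * P.ρ) := by
    intro y hy
    rw [mem_closedBall] at hx hy ⊢
    have h1 := dist_triangle y x P.x₀
    have h2 := hsδ.trans (min_le_right _ _)
    linarith
  obtain ⟨T, hT, hTy⟩ := taylor_poly hm P.g x (r := s) (ε := ε) (fun y hy => P.hg y (hsub hy))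
    (fun y hy => by
      have h1 := h y (hsub hy) x (P.sub hx) (by
        rw [mem_closedBall] at hy
        exact hy.trans (hsδ.trans (min_le_left _ _)))
      rwa [dist_eq_norm] at h1)
  have hη : 0 < 2 * ε * s ^ m := by positivity
  refine ⟨{y | (∀ j, |y j - x j| < s) ∧ |MvPolynomial.eval y T| < 2 * ε * s ^ m},
    basic_slab T hT x hs hη, ?_, ?_⟩
  · rintro y ⟨hy, hgy⟩ hyx
    refine ⟨fun j => ?_, ?_⟩
    · have := norm_le_pi_norm (y - x) j
      rw [Pi.sub_apply, Real.norm_eq_abs] at this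
      exact this.trans_lt hyx
    · have h1 := hTy y (by rw [mem_closedBall, dist_eq_norm]; exact hyx.le)
      rw [hgy, zero_sub, abs_neg] at h1
      have h2 : ‖y - x‖ ^ m ≤ s ^ m := pow_le_pow_left₀ (norm_nonneg _) hyx.le m
      have h3 : 0 < ε * s ^ m := by positivity
      calc |MvPolynomial.eval y T| ≤ ε * s ^ m := h1.trans (mul_le_mul_of_nonneg_left h2 hε.le)
        _ < 2 * ε * s ^ m := by linarith
  · refine (measure_mono ?_).trans (vol_slab P.hc0 (P.diff hm) P.hc (x := x) (s := s)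
      (η := 3 * ε * s ^ m) hs.le (by positivity) hsub)
    rintro y ⟨hy1, hy2⟩
    have hyb : y ∈ closedBall x s := by
      rw [mem_closedBall, dist_pi_le_iff hs.le]
      intro j
      rw [Real.dist_eq]
      exact (hy1 j).le
    refine ⟨hyb, ?_⟩
    have h1 := hTy y hyb
    have h2 : ‖y - x‖ ^ m ≤ s ^ m := by
      rw [mem_closedBall, dist_eq_norm] at hyb
      exact pow_le_pow_left₀ (norm_nonneg _) hyb m
    have h3 := h1.trans (mul_le_mul_of_nonneg_left h2 hε.le)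
    have h4 : |P.g y| ≤ |P.g y - MvPolynomial.eval y T| + |MvPolynomial.eval y T| := by
      have := abs_add_le (P.g y - MvPolynomial.eval y T) (MvPolynomial.eval y T)
      rwa [sub_add_cancel] at this
    linarith

/-- the column of a point -/
noncomputable def Pc.idx (P : Pc m) (r : ℝ) (x : Fin (m + 1) → ℝ) : Fin (m + 1) → ℤ :=
  fun j => if j = P.l then 0 else ⌊x j / r⌋

/-- the columns which meet the piece -/
noncomputable def Pc.I (P : Pc m) (r : ℝ) : Finset (Fin (m + 1) → ℤ) :=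
  Fintype.piFinset fun j => if j = P.l then {0} else
    Finset.Icc ⌊(P.x₀ j - P.ρ) / r⌋ ⌊(P.x₀ j + P.ρ) / r⌋

theorem Pc.idx_mem (P : Pc m) {r : ℝ} (hr : 0 < r) {x : Fin (m + 1) → ℝ} (hx : x ∈ P.M) :
    P.idx r x ∈ P.I r := by
  unfold Pc.idx Pc.I
  rw [Fintype.mem_piFinset]
  intro j
  by_cases hj : j = P.l
  · simp [hj]
  · simp only [if_neg hj, Finset.mem_Icc]
    have h1 := hx.1
    rw [mem_closedBall, dist_pi_le_iff P.hρ.le] at h1
    have h2 := h1 j
    rw [Real.dist_eq, abs_le] at h2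
    constructor
    · exact Int.floor_le_floor (div_le_div_of_nonneg_right (by linarith [h2.1]) hr.le)
    · exact Int.floor_le_floor (div_le_div_of_nonneg_right (by linarith [h2.2]) hr.le)

theorem Pc.card_I (P : Pc m) {r : ℝ} (hr : 0 < r) (hrρ : r ≤ P.ρ) :
    ((P.I r).card : ℝ) ≤ (4 * P.ρ / r) ^ m := by
  unfold Pc.I
  rw [Fintype.card_piFinset, Fin.prod_univ_succAbove _ P.l]
  simp only [if_true, Finset.card_singleton, one_mul]
  push_cast
  calc ∏ i : Fin m, (((if P.l.succAbove i = P.l then ({0} : Finset ℤ) else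
        Finset.Icc ⌊(P.x₀ (P.l.succAbove i) - P.ρ) / r⌋
          ⌊(P.x₀ (P.l.succAbove i) + P.ρ) / r⌋).card : ℕ) : ℝ) ≤ ∏ _i : Fin m, (4 * P.ρ / r) := by
        refine Finset.prod_le_prod (fun _ _ => Nat.cast_nonneg _) fun i _ => ?_
        rw [if_neg (Fin.succAbove_ne P.l i)]
        rw [Int.card_Icc]
        have h1 := Int.floor_le ((P.x₀ (P.l.succAbove i) + P.ρ) / r)
        have h2 := Int.lt_floor_add_one ((P.x₀ (P.l.succAbove i) - P.ρ) / r)
        have h3 : (P.x₀ (P.l.succAbove i) + P.ρ) / r - (P.x₀ (P.l.succAbove i) - P.ρ) / r =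
            2 * P.ρ / r := by ring
        have h4 : 1 ≤ P.ρ / r := by rw [le_div_iff₀ hr]; linarith
        have h5 : 4 * P.ρ / r = 4 * (P.ρ / r) := by ring
        have h6 : 2 * P.ρ / r = 2 * (P.ρ / r) := by ring
        have h7 : (((⌊(P.x₀ (P.l.succAbove i) + P.ρ) / r⌋ + 1 -
            ⌊(P.x₀ (P.l.succAbove i) - P.ρ) / r⌋).toNat : ℕ) : ℝ) ≤
            max (((⌊(P.x₀ (P.l.succAbove i) + P.ρ) / r⌋ + 1 -
            ⌊(P.x₀ (P.l.succAbove i) - P.ρ) / r⌋ : ℤ)) : ℝ) 0 := by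
          rw [← Int.cast_natCast, Int.toNat_eq_max]
          push_cast
          exact le_rfl
        refine h7.trans (max_le ?_ (by rw [h5]; linarith))
        push_cast
        rw [h5]
        linarith
    _ = (4 * P.ρ / r) ^ m := by
        rw [Finset.prod_const, Finset.card_univ, Fintype.card_fin]

theorem Pc.close (P : Pc m) (hm : 1 ≤ m) {G : ℝ}
    (hG : ∀ y ∈ closedBall P.x₀ (2 * P.ρ), ‖fderiv ℝ P.g y‖ ≤ G) {r : ℝ} (hr : 0 < r)
    {x y : Fin (m + 1) → ℝ} (hx : x ∈ P.M) (hy : y ∈ P.M) (hxy : P.idx r x = P.idx r y) :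
    ‖x - y‖ ≤ (1 + G / P.c) * r := by
  refine close_of_close (l := P.l) P.hc0 (P.diff hm) P.hc hG (P.sub hx.1) (P.sub hy.1)
    (hx.2.trans hy.2.symm) hr.le fun j hj => ?_
  have h1 := congrFun hxy j
  unfold Pc.idx at h1
  simp only [if_neg hj] at h1
  have h2 := Int.abs_sub_lt_one_of_floor_eq_floor h1
  rw [← sub_div, abs_div, abs_of_pos hr, div_lt_one hr] at h2
  exact h2.le

/-- **Lines meeting `m + 2` pieces of hypersurfaces of class `C^m` at distinct heights.** -/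
theorem null_pieces (hm : 1 ≤ m) {t : Fin (m + 2) → ℝ} (ht : Function.Injective t)
    (P : Fin (m + 2) → Pc m) :
    volume {v : Fin (m + 1) → ℝ | ∃ q : Fin (m + 1) → ℝ, ∀ i, q + t i • v ∈ (P i).M} = 0 := by
  classical
  have hGex := fun i => (P i).exists_bound hm
  choose G hG using hGex
  have hG0 : ∀ i, 0 ≤ G i := fun i =>
    (norm_nonneg _).trans (hG i (P i).x₀ (mem_closedBall_self (by linarith [(P i).hρ])))
  have h10 : t 1 - t 0 ≠ 0 := by
    rw [sub_ne_zero]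
    intro h
    exact absurd (ht h) (by simp)
  obtain ⟨Λ, hΛ⟩ : ∃ Λ : ℝ, Λ = ∑ i, (1 + G i / (P i).c) := ⟨_, rfl⟩
  have hΛi : ∀ i, 1 + G i / (P i).c ≤ Λ := by
    intro i
    rw [hΛ]
    exact Finset.single_le_sum (f := fun i => 1 + G i / (P i).c)
      (fun i _ => by have := hG0 i; have := (P i).hc0; positivity) (Finset.mem_univ i)
  have hΛ0 : 0 < Λ := by
    have h1 := hΛi 0
    have h2 : 0 ≤ G 0 / (P 0).c := div_nonneg (hG0 0) (P 0).hc0.le
    linarith
  obtain ⟨τ, hτ⟩ : ∃ τ : ℝ, τ = ∑ i, |(t i - t 0) / (t 1 - t 0)| := ⟨_, rfl⟩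
  have hτi : ∀ i, |(t i - t 0) / (t 1 - t 0)| ≤ τ := by
    intro i
    rw [hτ]
    exact Finset.single_le_sum (f := fun i => |(t i - t 0) / (t 1 - t 0)|)
      (fun i _ => abs_nonneg _) (Finset.mem_univ i)
  have hτ0 : 0 ≤ τ := (abs_nonneg _).trans (hτi 0)
  obtain ⟨A, hA⟩ : ∃ A : ℝ, A = 2 * Λ * (1 + 2 * τ) := ⟨_, rfl⟩
  have hA0 : 0 < A := by rw [hA]; positivity
  obtain ⟨κ, hκ⟩ : ∃ κ : ℝ, κ = 12 * (32 * (P 0).ρ * (P 1).ρ * A ^ 2) ^ m := ⟨_, rfl⟩
  have hρ0 := (P 0).hρ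
  have hρ1 := (P 1).hρ
  have hκ0 : 0 < κ := by rw [hκ]; positivity
  obtain ⟨B, hB⟩ : ∃ B : ℝ≥0∞, B = (lamB (m + 1) (2 * m + 2 * (m + 1)) : ℝ≥0∞) *
    ∑ i, wt t i * ENNReal.ofReal (κ / (P i).c) := ⟨_, rfl⟩
  have hBt : B ≠ ∞ := by
    rw [hB]
    refine ENNReal.mul_ne_top (ENNReal.natCast_ne_top _) ?_
    refine (ENNReal.sum_lt_top.2 fun i _ => ?_).ne
    exact ENNReal.mul_lt_top (by unfold wt; exact ENNReal.ofReal_lt_top) ENNReal.ofReal_lt_top
  have key : ∀ ε : ℝ, 0 < ε →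
      volume {v : Fin (m + 1) → ℝ | ∃ q : Fin (m + 1) → ℝ, ∀ i, q + t i • v ∈ (P i).M} ≤
        ENNReal.ofReal ε * B := by
    intro ε hε
    have hs := fun i => (P i).slab hm hε
    choose δ hδ hslab using hs
    obtain ⟨r, hr0, hr⟩ : ∃ r : ℝ, 0 < r ∧ ∀ i, r ≤ (P i).ρ ∧ A * r ≤ δ i := by
      refine ⟨Finset.univ.inf' Finset.univ_nonempty (fun i => min (P i).ρ (δ i / A)), ?_, ?_⟩
      · rw [Finset.lt_inf'_iff]
        exact fun i _ => lt_min (P i).hρ (div_pos (hδ i) hA0)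
      · intro i
        have h1 := Finset.inf'_le (fun i => min (P i).ρ (δ i / A)) (Finset.mem_univ i)
        refine ⟨h1.trans (min_le_left _ _), ?_⟩
        have h2 := h1.trans (min_le_right _ _)
        rw [le_div_iff₀ hA0] at h2
        linarith
    -- the columns
    let Vz : (Fin (m + 1) → ℤ) × (Fin (m + 1) → ℤ) → Set (Fin (m + 1) → ℝ) := fun z =>
      {v | ∃ q : Fin (m + 1) → ℝ, (∀ i, q + t i • v ∈ (P i).M) ∧
        (P 0).idx r (q + t 0 • v) = z.1 ∧ (P 1).idx r (q + t 1 • v) = z.2}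
    have hcov : {v : Fin (m + 1) → ℝ | ∃ q : Fin (m + 1) → ℝ, ∀ i, q + t i • v ∈ (P i).M} ⊆
        ⋃ z ∈ (P 0).I r ×ˢ (P 1).I r, Vz z := by
      rintro v ⟨q, hq⟩
      rw [mem_iUnion₂]
      refine ⟨((P 0).idx r (q + t 0 • v), (P 1).idx r (q + t 1 • v)), ?_, q, hq, rfl, rfl⟩
      rw [Finset.mem_product]
      exact ⟨(P 0).idx_mem hr0 (hq 0), (P 1).idx_mem hr0 (hq 1)⟩
    obtain ⟨b, hb⟩ : ∃ b : ℝ≥0∞, b = (lamB (m + 1) (2 * m + 2 * (m + 1)) : ℝ≥0∞) *
      ∑ i, wt t i * ENNReal.ofReal ((2 * (A * r)) ^ m * (4 * (3 * ε * (A * r) ^ m) / (P i).c)) :=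
      ⟨_, rfl⟩
    have hVz : ∀ z, volume (Vz z) ≤ b := by
      intro z
      rcases (Vz z).eq_empty_or_nonempty with h0 | ⟨v', q', hq', hz1, hz2⟩
      · rw [h0, measure_empty]
        exact zero_le
      have hS := fun i => hslab i _ (hq' i) (A * r) (by positivity) (hr i).2
      choose S hSb hSm hSv using hS
      have hsub : Vz z ⊆ {v | ∃ q : Fin (m + 1) → ℝ, ∀ i, q + t i • v ∈ S i} := by
        rintro v ⟨q, hq, h1, h2⟩
        refine ⟨q, fun i => hSm i _ (hq i) ?_⟩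
        have hu0 : ‖(q + t 0 • v) - (q' + t 0 • v')‖ ≤ Λ * r :=
          ((P 0).close hm (hG 0) hr0 (hq 0) (hq' 0) (h1.trans hz1.symm)).trans
            (mul_le_mul_of_nonneg_right (hΛi 0) hr0.le)
        have hu1 : ‖(q + t 1 • v) - (q' + t 1 • v')‖ ≤ Λ * r :=
          ((P 1).close hm (hG 1) hr0 (hq 1) (hq' 1) (h2.trans hz2.symm)).trans
            (mul_le_mul_of_nonneg_right (hΛi 1) hr0.le)
        have hcomb : (q + t i • v) - (q' + t i • v') = ((q + t 0 • v) - (q' + t 0 • v')) +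
            ((t i - t 0) / (t 1 - t 0)) • (((q + t 1 • v) - (q' + t 1 • v')) -
              ((q + t 0 • v) - (q' + t 0 • v'))) := by
          have h3 : ((q + t 1 • v) - (q' + t 1 • v')) - ((q + t 0 • v) - (q' + t 0 • v')) =
              (t 1 - t 0) • (v - v') := by
            simp only [sub_smul, smul_sub]
            abel
          rw [h3, smul_smul, div_mul_cancel₀ _ h10]
          simp only [sub_smul, smul_sub]
          abel
        rw [hcomb]
        have h4 : ‖((t i - t 0) / (t 1 - t 0)) • (((q + t 1 • v) - (q' + t 1 • v')) -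
              ((q + t 0 • v) - (q' + t 0 • v')))‖ ≤ τ * (2 * (Λ * r)) := by
          rw [norm_smul, Real.norm_eq_abs]
          refine mul_le_mul (hτi i) ((norm_sub_le _ _).trans (by linarith)) (norm_nonneg _) hτ0
        calc _ ≤ Λ * r + τ * (2 * (Λ * r)) := (norm_add_le _ _).trans (add_le_add hu0 h4)
          _ < A * r := by
            rw [hA]
            have : 0 < Λ * r * (1 + 2 * τ) := by positivity
            nlinarith
      refine (measure_mono hsub).trans ((basic_vel' (by omega) ht hSb).trans ?_)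
      rw [hb]
      gcongr with i _
      exact hSv i
    calc volume {v : Fin (m + 1) → ℝ | ∃ q : Fin (m + 1) → ℝ, ∀ i, q + t i • v ∈ (P i).M}
        ≤ volume (⋃ z ∈ (P 0).I r ×ˢ (P 1).I r, Vz z) := measure_mono hcov
      _ ≤ ∑ z ∈ (P 0).I r ×ˢ (P 1).I r, volume (Vz z) := measure_biUnion_finset_le _ _
      _ ≤ ∑ _z ∈ (P 0).I r ×ˢ (P 1).I r, b := Finset.sum_le_sum fun z _ => hVz z
      _ = ENNReal.ofReal (((P 0).I r).card * ((P 1).I r).card) * b := by
          rw [Finset.sum_const, nsmul_eq_mul, Finset.card_product,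
            ENNReal.ofReal_mul (Nat.cast_nonneg _), ENNReal.ofReal_natCast, ENNReal.ofReal_natCast]
          push_cast
          rfl
      _ ≤ ENNReal.ofReal ((4 * (P 0).ρ / r) ^ m * (4 * (P 1).ρ / r) ^ m) * b := by
          refine mul_le_mul_left (ENNReal.ofReal_le_ofReal ?_) _
          exact mul_le_mul ((P 0).card_I hr0 (hr 0).1) ((P 1).card_I hr0 (hr 1).1)
            (Nat.cast_nonneg _) (by positivity)
      _ = ENNReal.ofReal ε * B := by
          rw [hb, hB, mul_left_comm, mul_left_comm (ENNReal.ofReal ε)]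
          congr 1
          rw [Finset.mul_sum, Finset.mul_sum]
          refine Finset.sum_congr rfl fun i _ => ?_
          rw [mul_left_comm, mul_left_comm (ENNReal.ofReal ε)]
          congr 1
          rw [← ENNReal.ofReal_mul (by positivity), ← ENNReal.ofReal_mul hε.le]
          congr 1
          have hci := (P i).hc0
          rw [hκ]
          have e1 : (32 * (P 0).ρ * (P 1).ρ * A ^ 2) ^ m =
              (4 * (P 0).ρ / r) ^ m * (4 * (P 1).ρ / r) ^ m * ((2 * (A * r)) ^ m * (A * r) ^ m) := by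
            rw [← mul_pow, ← mul_pow, ← mul_pow]
            congr 1
            field_simp
            ring
          rw [e1]
          field_simp
          ring
  have hlim : Tendsto (fun n : ℕ => ENNReal.ofReal (1 / ((n : ℝ) + 1)) * B) atTop (𝓝 (0 * B)) := by
    refine ENNReal.Tendsto.mul_const ?_ (Or.inr hBt)
    rw [← ENNReal.ofReal_zero]
    exact ENNReal.tendsto_ofReal tendsto_one_div_add_atTop_nhds_zero_nat
  rw [zero_mul] at hlim
  exact le_antisymm (ge_of_tendsto' hlim fun n => key _ (by positivity)) zero_le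

end Pool.Agent.X84.Hyp
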