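import Pool.Agent.X84.Hyp.Whole
import Pool.Agent.TH539.SAThin

/-!
# Slices of Kakeya sets and countable unions of hypersurfaces
-/

set_option autoImplicit false

open MeasureTheory Set Metric Filter Topology
open scoped ENNReal

namespace Pool.Agent.X84.Hyp
open Pool.Agent.TH539

variable {m : ℕ}

/-- **All but `n - 1` slices over some interval are not contained in countable unions of
hypersurfaces of class `C^(n-2)`.** -/
theorem few_hyp (hm : 1 ≤ m) {K : Set (EuclideanSpace ℝ (Fin (m + 1 + 1)))}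
    {S : Set (sphere (0 : EuclideanSpace ℝ (Fin (m + 1 + 1))) 1)}
    (hS : ∀ e ∈ S, 1 / 2 ≤ |(e : EuclideanSpace ℝ (Fin (m + 1 + 1))) 0|)
    (hK : ∀ e ∈ S, ∃ z : EuclideanSpace ℝ (Fin (m + 1 + 1)),
      ∀ s ∈ Icc (0:ℝ) 1, z + s • (e : EuclideanSpace ℝ (Fin (m + 1 + 1))) ∈ K)
    (hS0 : surf (m + 1 + 1) S ≠ 0) :
    ∃ a : ℝ, (∀ t ∈ Icc a (a + 1 / 4), (slice K t).Nonempty) ∧
      {t ∈ Icc a (a + 1 / 4) | ManyHyp m (slice K t)}.encard ≤ (m + 1 : ℕ) := by
  classical
  have hne : ∀ e ∈ S, (e : EuclideanSpace ℝ (Fin (m + 1 + 1))) 0 ≠ 0 := by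
    intro e he h
    have := hS e he
    rw [h, abs_zero] at this
    linarith
  set V : Set (Fin (m + 1) → ℝ) :=
    (fun e : sphere (0 : EuclideanSpace ℝ (Fin (m + 1 + 1))) 1 =>
        vel (e : EuclideanSpace ℝ (Fin (m + 1 + 1)))) '' S with hV
  have hV0 : volume V ≠ 0 := by
    intro h
    have := surf_le hne
    rw [← hV, h, mul_zero] at this
    exact hS0 (le_antisymm this zero_le)
  set X : ℤ → Set (Fin (m + 1) → ℝ) := fun k => {v : Fin (m + 1) → ℝ | ∃ q : Fin (m + 1) → ℝ,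
    ∀ t ∈ Icc ((k:ℝ) * (1 / 4)) ((k:ℝ) * (1 / 4) + 1 / 4), q + t • v ∈ slice K t} with hX
  have hsub : V ⊆ ⋃ k, X k := by
    rintro _ ⟨e, he, rfl⟩
    obtain ⟨z, hz⟩ := hK e he
    obtain ⟨q, a, hqa⟩ := segment_height (hS e he) hz
    obtain ⟨k, hk⟩ := exists_cell (show (0:ℝ) < 1 / 4 by norm_num) a
    have heq : ((k:ℝ) + 1) * (1 / 4) = (k:ℝ) * (1 / 4) + 1 / 4 := by ring
    rw [heq] at hk
    exact mem_iUnion.2 ⟨k, q, fun t ht => hqa t (hk ht)⟩
  have hXpos : ∃ k, volume (X k) ≠ 0 := by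
    by_contra hcon
    push Not at hcon
    have : volume (⋃ k, X k) = 0 := measure_iUnion_null hcon
    exact hV0 (measure_mono_null hsub this)
  obtain ⟨k, hk⟩ := hXpos
  obtain ⟨v, q, hq⟩ : (X k).Nonempty := by
    rw [nonempty_iff_ne_empty]
    intro h; rw [h, measure_empty] at hk; exact hk rfl
  set a : ℝ := (k:ℝ) * (1 / 4) with ha
  refine ⟨a, fun t ht => ⟨_, hq t ht⟩, ?_⟩
  by_contra hcon
  push Not at hcon
  have hcard : ((m + 1 + 1 : ℕ) : ℕ∞) ≤
      {t ∈ Icc a (a + 1 / 4) | ManyHyp m (slice K t)}.encard := by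
    push_cast
    push_cast at hcon
    exact Order.add_one_le_of_lt hcon
  obtain ⟨T, hT, hTc⟩ := exists_subset_encard_eq hcard
  have hTfin : T.Finite := finite_of_encard_eq_coe hTc
  have hTcard : hTfin.toFinset.card = m + 1 + 1 := by
    have h1 := hTfin.encard_eq_coe_toFinset_card
    rw [h1] at hTc
    exact_mod_cast hTc
  let e := hTfin.toFinset.equivFinOfCardEq hTcard
  set t : Fin (m + 1 + 1) → ℝ := fun i => (e.symm i : ℝ) with ht
  have htinj : Function.Injective t := fun i j hij => e.symm.injective (Subtype.ext hij)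
  have htmem : ∀ i, t i ∈ {t ∈ Icc a (a + 1 / 4) | ManyHyp m (slice K t)} := by
    intro i
    apply hT
    have := (e.symm i).2
    exact hTfin.mem_toFinset.1 this
  have h0 := hyp_vel hm htinj (A := fun i => slice K (t i)) (fun i => (htmem i).2)
  refine hk (measure_mono_null ?_ h0)
  rintro w ⟨q', hq'⟩
  exact ⟨q', fun i => hq' _ (htmem i).1⟩

/-- The number `n` of heights in `hyp_vel` cannot be lowered. -/
theorem sharp (t : Fin (m + 1) → ℝ) : ∃ A : Fin (m + 1) → Set (Fin (m + 1) → ℝ),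
    (∀ i, ManyHyp m (A i)) ∧ ∀ v, ∃ q, ∀ i, q + t i • v ∈ A i := by
  refine ⟨fun i => {y | y i = 0}, fun i => ?_, fun v => ⟨fun i => -(t i * v i), fun i => ?_⟩⟩
  · refine ⟨fun _ => univ, fun _ y => y i, fun _ => ⟨isOpen_univ, ?_⟩, ?_⟩
    · exact (contDiff_apply ℝ ℝ i).contDiffOn
    · intro y hy
      refine mem_iUnion.2 ⟨0, mem_univ _, hy, ?_⟩
      have h1 : HasFDerivAt (fun y : Fin (m + 1) → ℝ => y i)
          (ContinuousLinearMap.proj (R := ℝ) (φ := fun _ : Fin (m + 1) => ℝ) i) y :=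
        (ContinuousLinearMap.proj (R := ℝ) (φ := fun _ : Fin (m + 1) => ℝ) i).hasFDerivAt
      intro h2
      rw [h1.fderiv] at h2
      have := congrArg (fun L => L (Pi.single i 1)) h2
      simp at this
  · change -(t i * v i) + t i * v i = 0
    ring

end Pool.Agent.X84.Hyp
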