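import Mathlib

/-!
# Taylor polynomials in several variables, as multivariate polynomials
-/

set_option autoImplicit false

open MeasureTheory Set Metric Finset
open scoped Nat

namespace Pool.Agent.X84.Hyp

variable {d : ℕ}

/-- the polynomial `h ↦ D^j g (x) (h, ..., h)`, `h = y - x` -/
noncomputable def homP (j : ℕ) (g : (Fin d → ℝ) → ℝ) (x : Fin d → ℝ) : MvPolynomial (Fin d) ℝ :=
  ∑ i : Fin j → Fin d, MvPolynomial.C (iteratedFDeriv ℝ j g x (fun l => Pi.single (i l) 1)) *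
    ∏ l : Fin j, (MvPolynomial.X (i l) - MvPolynomial.C (x (i l)))

theorem eval_homP (j : ℕ) (g : (Fin d → ℝ) → ℝ) (x y : Fin d → ℝ) :
    MvPolynomial.eval y (homP j g x) = iteratedFDeriv ℝ j g x (fun _ => y - x) := by
  have h1 : (fun _ : Fin j => y - x) =
      fun _ : Fin j => ∑ a : Fin d, (y a - x a) • (Pi.single a (1 : ℝ) : Fin d → ℝ) := by
    funext _
    ext b
    simp [Finset.sum_apply, Pi.single_apply]
  rw [h1, ContinuousMultilinearMap.map_sum]
  unfold homP
  rw [map_sum]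
  refine Finset.sum_congr rfl fun i _ => ?_
  rw [ContinuousMultilinearMap.map_smul_univ, smul_eq_mul]
  simp only [map_mul, MvPolynomial.eval_C, map_prod, map_sub, MvPolynomial.eval_X]
  ring

theorem deg_homP (j : ℕ) (g : (Fin d → ℝ) → ℝ) (x : Fin d → ℝ) :
    (homP j g x).totalDegree ≤ j := by
  unfold homP
  refine MvPolynomial.totalDegree_finsetSum_le fun i _ => ?_
  refine (MvPolynomial.totalDegree_mul _ _).trans ?_
  rw [MvPolynomial.totalDegree_C, zero_add]
  refine (MvPolynomial.totalDegree_finsetProd _ _).trans ?_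
  calc ∑ l : Fin j, (MvPolynomial.X (i l) - MvPolynomial.C (x (i l)) :
        MvPolynomial (Fin d) ℝ).totalDegree ≤ ∑ _l : Fin j, 1 := by
        refine Finset.sum_le_sum fun l _ => ?_
        refine (MvPolynomial.totalDegree_sub _ _).trans ?_
        rw [MvPolynomial.totalDegree_C, MvPolynomial.totalDegree_X]
        simp
    _ = j := by simp

/-- Taylor's theorem with small remainder. -/
theorem taylor_poly {k : ℕ} (hk : 1 ≤ k) (g : (Fin d → ℝ) → ℝ) (x : Fin d → ℝ) {r ε : ℝ}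
    (hg : ∀ y ∈ closedBall x r, ContDiffAt ℝ k g y)
    (hε : ∀ y ∈ closedBall x r, ‖iteratedFDeriv ℝ k g y - iteratedFDeriv ℝ k g x‖ ≤ ε) :
    ∃ P : MvPolynomial (Fin d) ℝ, P.totalDegree ≤ k ∧
      ∀ y ∈ closedBall x r, |g y - MvPolynomial.eval y P| ≤ ε * ‖y - x‖ ^ k := by
  obtain ⟨n, rfl⟩ : ∃ n, k = n + 1 := ⟨k - 1, by omega⟩
  refine ⟨∑ j ∈ Finset.range (n + 2), MvPolynomial.C ((j ! : ℝ)⁻¹) * homP j g x, ?_, ?_⟩
  · refine MvPolynomial.totalDegree_finsetSum_le fun j hj => ?_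
    refine (MvPolynomial.totalDegree_mul _ _).trans ?_
    rw [MvPolynomial.totalDegree_C, zero_add]
    refine (deg_homP j g x).trans ?_
    have := Finset.mem_range.1 hj
    omega
  intro y hy
  have hseg : ∀ t ∈ Set.Icc (0 : ℝ) 1, x + t • (y - x) ∈ closedBall x r := by
    intro t ht
    rw [mem_closedBall, dist_eq_norm, add_sub_cancel_left, norm_smul, Real.norm_eq_abs,
      abs_of_nonneg ht.1]
    rw [mem_closedBall, dist_eq_norm] at hy
    calc t * ‖y - x‖ ≤ 1 * ‖y - x‖ := mul_le_mul_of_nonneg_right ht.2 (norm_nonneg _)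
      _ ≤ r := by rw [one_mul]; exact hy
  have hcd : ∀ t ∈ Set.Icc (0 : ℝ) 1, ContDiffAt ℝ (n + 1 : ℕ) g (x + t • (y - x)) :=
    fun t ht => hg _ (hseg t ht)
  have hT := map_add_eq_sum_add_integral_iteratedFDeriv (f := g) (x := x) (y := y - x) (n := n)
    (fun t ht => by exact_mod_cast hcd t ht)
  rw [add_sub_cancel] at hT
  -- the integral
  have hcont : ContinuousOn (fun t : ℝ => iteratedFDeriv ℝ (n + 1) g (x + t • (y - x)) (fun _ => y - x))
      (Set.Icc 0 1) := by
    intro t ht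
    have h1 : ContinuousAt (iteratedFDeriv ℝ (n + 1) g) (x + t • (y - x)) :=
      (hcd t ht).continuousAt_iteratedFDeriv le_rfl
    have h2 : ContinuousAt (fun t : ℝ => x + t • (y - x)) t := by fun_prop
    have h3 : ContinuousAt (fun t : ℝ => iteratedFDeriv ℝ (n + 1) g (x + t • (y - x))) t :=
      ContinuousAt.comp (g := iteratedFDeriv ℝ (n + 1) g) h1 h2
    exact ((ContinuousMultilinearMap.apply ℝ (fun _ : Fin (n + 1) => (Fin d → ℝ)) ℝ
      (fun _ => y - x)).continuous.continuousAt.comp h3).continuousWithinAt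
  have hint : ∫ t in (0 : ℝ)..1, (1 - t) ^ n * iteratedFDeriv ℝ (n + 1) g x (fun _ => y - x) =
      ((n : ℝ) + 1)⁻¹ * iteratedFDeriv ℝ (n + 1) g x (fun _ => y - x) := by
    rw [intervalIntegral.integral_mul_const]
    congr 1
    have h1 : ∫ t in (0 : ℝ)..1, (1 - t) ^ n = ∫ t in (0 : ℝ)..1, t ^ n := by
      have := intervalIntegral.integral_comp_sub_left (fun t : ℝ => t ^ n) (1 : ℝ) (a := 0) (b := 1)
      simpa using this
    rw [h1, integral_pow]
    simp
  have hdiff : g y - MvPolynomial.eval y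
      (∑ j ∈ Finset.range (n + 2), MvPolynomial.C ((j ! : ℝ)⁻¹) * homP j g x) =
      (n ! : ℝ)⁻¹ * ∫ t in (0 : ℝ)..1, (1 - t) ^ n *
        (iteratedFDeriv ℝ (n + 1) g (x + t • (y - x)) (fun _ => y - x) -
          iteratedFDeriv ℝ (n + 1) g x (fun _ => y - x)) := by
    rw [map_sum]
    simp only [map_mul, MvPolynomial.eval_C, eval_homP]
    rw [Finset.sum_range_succ]
    simp only [smul_eq_mul] at hT
    have h2 : ∫ t in (0 : ℝ)..1, (1 - t) ^ n *
        (iteratedFDeriv ℝ (n + 1) g (x + t • (y - x)) (fun _ => y - x) -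
          iteratedFDeriv ℝ (n + 1) g x (fun _ => y - x)) =
        (∫ t in (0 : ℝ)..1, (1 - t) ^ n *
          iteratedFDeriv ℝ (n + 1) g (x + t • (y - x)) (fun _ => y - x)) -
        ∫ t in (0 : ℝ)..1, (1 - t) ^ n * iteratedFDeriv ℝ (n + 1) g x (fun _ => y - x) := by
      rw [← intervalIntegral.integral_sub]
      · refine intervalIntegral.integral_congr fun t _ => ?_
        ring
      · apply ContinuousOn.intervalIntegrable
        rw [Set.uIcc_of_le zero_le_one]
        exact (Continuous.continuousOn (by fun_prop)).mul hcont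
      · apply Continuous.intervalIntegrable
        fun_prop
    rw [h2, hint, hT]
    have h3 : ((n + 1)! : ℝ)⁻¹ = (n ! : ℝ)⁻¹ * ((n : ℝ) + 1)⁻¹ := by
      rw [Nat.factorial_succ]
      push_cast
      rw [mul_inv, mul_comm]
    rw [h3]
    ring
  rw [hdiff, abs_mul, abs_of_nonneg (by positivity)]
  have hε0 : 0 ≤ ε := (norm_nonneg _).trans (hε y hy)
  have hle : |∫ t in (0 : ℝ)..1, (1 - t) ^ n *
        (iteratedFDeriv ℝ (n + 1) g (x + t • (y - x)) (fun _ => y - x) -
          iteratedFDeriv ℝ (n + 1) g x (fun _ => y - x))| ≤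
      (ε * ‖y - x‖ ^ (n + 1)) * |(1 : ℝ) - 0| := by
    rw [← Real.norm_eq_abs]
    refine intervalIntegral.norm_integral_le_of_norm_le_const fun t ht => ?_
    rw [Set.uIoc_of_le zero_le_one] at ht
    rw [norm_mul, Real.norm_eq_abs, abs_of_nonneg (by have := ht.2; positivity)]
    have h1 : (1 - t) ^ n ≤ 1 := pow_le_one₀ (by linarith [ht.2]) (by linarith [ht.1])
    have h2 : ‖iteratedFDeriv ℝ (n + 1) g (x + t • (y - x)) (fun _ => y - x) -
          iteratedFDeriv ℝ (n + 1) g x (fun _ => y - x)‖ ≤ ε * ‖y - x‖ ^ (n + 1) := by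
      rw [← sub_apply]
      refine (ContinuousMultilinearMap.le_opNorm _ _).trans ?_
      rw [Finset.prod_const, Finset.card_univ, Fintype.card_fin]
      exact mul_le_mul_of_nonneg_right (hε _ (hseg t ⟨ht.1.le, ht.2⟩)) (by positivity)
    calc (1 - t) ^ n * ‖iteratedFDeriv ℝ (n + 1) g (x + t • (y - x)) (fun _ => y - x) -
          iteratedFDeriv ℝ (n + 1) g x (fun _ => y - x)‖ ≤ 1 * (ε * ‖y - x‖ ^ (n + 1)) :=
          mul_le_mul h1 h2 (norm_nonneg _) zero_le_one
      _ = _ := one_mul _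
  have hfac : (n ! : ℝ)⁻¹ ≤ 1 := by
    apply inv_le_one_of_one_le₀
    exact_mod_cast Nat.one_le_iff_ne_zero.2 (Nat.factorial_ne_zero n)
  have h0 : 0 ≤ ε * ‖y - x‖ ^ (n + 1) := by positivity
  calc _ ≤ (n ! : ℝ)⁻¹ * ((ε * ‖y - x‖ ^ (n + 1)) * |(1 : ℝ) - 0|) :=
        mul_le_mul_of_nonneg_left hle (by positivity)
    _ = (n ! : ℝ)⁻¹ * (ε * ‖y - x‖ ^ (n + 1)) := by simp
    _ ≤ 1 * (ε * ‖y - x‖ ^ (n + 1)) := mul_le_mul_of_nonneg_right hfac h0
    _ = _ := one_mul _

end Pool.Agent.X84.Hyp
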