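import Pool.Agent.X84.Hyp.Main

/-!
# Lines and countable unions of hypersurfaces in the whole space
-/

set_option autoImplicit false

open MeasureTheory Set Metric Filter Topology
open scoped ENNReal

namespace Pool.Agent.X84.Hyp
open Pool.Agent.W605.HD Pool.Agent.Y674.HK

section basics

variable {d : ℕ}

theorem pt_line (t : ℝ) (q v : Fin d → ℝ) : pt d t (q + t • v) = pt d 0 q + t • pt d 1 v := by
  ext l
  refine Fin.cases ?_ (fun i => ?_) l
  · simp only [PiLp.add_apply, PiLp.smul_apply, smul_eq_mul, pt_zero]; ring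
  · simp only [PiLp.add_apply, PiLp.smul_apply, smul_eq_mul, pt_succ, Pi.add_apply,
      Pi.smul_apply]

/-- the horizontal inclusion -/
noncomputable def inc (d : ℕ) : (Fin d → ℝ) →L[ℝ] EuclideanSpace ℝ (Fin (d + 1)) :=
  LinearMap.toContinuousLinearMap
    { toFun := fun y => pt d 0 y
      map_add' := fun x y => by
        ext l
        refine Fin.cases ?_ (fun i => ?_) l
        · simp only [PiLp.add_apply, pt_zero]; ring
        · simp only [PiLp.add_apply, pt_succ, Pi.add_apply]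
      map_smul' := fun c x => by
        ext l
        refine Fin.cases ?_ (fun i => ?_) l
        · simp only [PiLp.smul_apply, pt_zero, smul_eq_mul, RingHom.id_apply]; ring
        · simp only [PiLp.smul_apply, pt_succ, Pi.smul_apply, RingHom.id_apply] }

theorem inc_apply (y : Fin d → ℝ) : inc d y = pt d 0 y := rfl

theorem pt_eq (t : ℝ) (y : Fin d → ℝ) : pt d t y = pt d t 0 + inc d y := by
  rw [inc_apply]
  ext l
  refine Fin.cases ?_ (fun i => ?_) l
  · simp only [PiLp.add_apply, pt_zero]; ring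
  · simp only [PiLp.add_apply, pt_succ, Pi.zero_apply]; ring

theorem pt_height (t : ℝ) : pt d t 0 = t • pt d 1 0 := by
  ext l
  refine Fin.cases ?_ (fun i => ?_) l
  · simp only [PiLp.smul_apply, pt_zero, smul_eq_mul]; ring
  · simp only [PiLp.smul_apply, pt_succ, Pi.zero_apply, smul_eq_mul]; ring

theorem continuous_pt {X : Type*} [TopologicalSpace X] {f : X → ℝ} {g : X → (Fin d → ℝ)}
    (hf : Continuous f) (hg : Continuous g) : Continuous fun x => pt d (f x) (g x) := by
  have : (fun x => pt d (f x) (g x)) = fun x => f x • pt d 1 0 + inc d (g x) := by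
    funext x
    rw [pt_eq, pt_height]
  rw [this]
  exact (hf.smul continuous_const).add ((inc d).continuous.comp hg)

/-- If a functional kills the direction of a line and does not vanish, it does not vanish on the
horizontal space. -/
theorem horizontal {L : EuclideanSpace ℝ (Fin (d + 1)) →L[ℝ] ℝ} (hL : L ≠ 0) {v : Fin d → ℝ}
    (hv : L (pt d 1 v) = 0) : ∃ y, L (inc d y) ≠ 0 := by
  by_contra hcon
  push Not at hcon
  apply hL
  refine ContinuousLinearMap.ext fun x => ?_
  have h1 : x = x 0 • pt d 1 v + inc d ((fun i => x (Fin.succ i)) - x 0 • v) := by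
    rw [inc_apply]
    ext l
    refine Fin.cases ?_ (fun i => ?_) l
    · simp only [PiLp.add_apply, PiLp.smul_apply, pt_zero, smul_eq_mul]; ring
    · simp only [PiLp.add_apply, PiLp.smul_apply, pt_succ, Pi.sub_apply, Pi.smul_apply,
        smul_eq_mul]; ring
  rw [h1, map_add, map_smul, hv, hcon]
  simp

/-- Transversal intersections of a line with a zero set are countable. -/
theorem transversal_countable {E : Type*} [NormedAddCommGroup E] [NormedSpace ℝ E] {O : Set E}
    {g : E → ℝ} (hg : ∀ x ∈ O, DifferentiableAt ℝ g x) (a e : E) :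
    {t : ℝ | a + t • e ∈ O ∧ g (a + t • e) = 0 ∧ fderiv ℝ g (a + t • e) e ≠ 0}.Countable := by
  set S := {t : ℝ | a + t • e ∈ O ∧ g (a + t • e) = 0 ∧ fderiv ℝ g (a + t • e) e ≠ 0} with hS
  have h1 : DiscreteTopology S := by
    rw [discreteTopology_subtype_iff]
    intro t ht
    have h2 : HasDerivAt (fun s : ℝ => g (a + s • e)) (fderiv ℝ g (a + t • e) e) t := by
      have h3 : HasDerivAt (fun s : ℝ => a + s • e) e t := by
        have := ((hasDerivAt_id t).smul_const e).const_add a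
        simpa using this
      exact (hg _ ht.1).hasFDerivAt.comp_hasDerivAt t h3
    have h3 := h2.eventually_ne (c := 0) ht.2.2
    rw [← Filter.empty_mem_iff_bot, Filter.mem_inf_principal]
    filter_upwards [h3] with s hs hsS
    exact (hs hsS.2.1).elim
  exact Set.countable_coe_iff.1 (TopologicalSpace.separableSpace_iff_countable.1 inferInstance)

end basics

section closedcase

variable {m : ℕ}

theorem ae_injective (n : ℕ) : ∀ᵐ t : Fin n → ℝ, Function.Injective t := by
  have h1 : ∀ i j : Fin n, i ≠ j → ∀ᵐ t : Fin n → ℝ, t i ≠ t j := by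
    intro i j hij
    obtain ⟨s, hs⟩ : ∃ s : Submodule ℝ (Fin n → ℝ), s = LinearMap.ker
      (LinearMap.proj (R := ℝ) (φ := fun _ : Fin n => ℝ) i - LinearMap.proj j) := ⟨_, rfl⟩
    have h2 : s ≠ ⊤ := by
      intro h
      have h3 : (Pi.single i 1 : Fin n → ℝ) ∈ s := by rw [h]; trivial
      rw [hs, LinearMap.mem_ker] at h3
      simp [hij.symm] at h3
    have h4 := Measure.addHaar_submodule volume s h2
    rw [ae_iff]
    refine measure_mono_null ?_ h4
    intro t ht
    simp only [ne_eq, not_not, mem_ofPred_eq] at ht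
    change t ∈ s
    rw [hs, LinearMap.mem_ker]
    simp [ht]
  have h2 : ∀ᵐ t : Fin n → ℝ, ∀ i j : Fin n, i ≠ j → t i ≠ t j := by
    rw [ae_all_iff]; intro i
    rw [ae_all_iff]; intro j
    by_cases hij : i = j
    · exact Filter.Eventually.of_forall fun t h => absurd hij h
    · filter_upwards [h1 i j hij] with t ht _ using ht
  filter_upwards [h2] with t ht i j hij
  by_contra h
  exact ht i j h hij

/-- **Closed sets all of whose slices lie in countable unions of hypersurfaces.** -/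
theorem closed_case (hm : 1 ≤ m) {C : Set (EuclideanSpace ℝ (Fin (m + 1 + 1)))}
    (hC : IsClosed C) (hs : ∀ t, ManyHyp m {y : Fin (m + 1) → ℝ | pt (m + 1) t y ∈ C}) :
    ∀ᵐ v : Fin (m + 1) → ℝ, ∀ q : Fin (m + 1) → ℝ,
      volume {t : ℝ | pt (m + 1) t (q + t • v) ∈ C} = 0 := by
  obtain ⟨Γ, hΓ⟩ : ∃ Γ : Set ((Fin (m + 1) → ℝ) × (Fin (m + 2) → ℝ)), Γ =
    {z | ∃ q : Fin (m + 1) → ℝ, ∀ i, pt (m + 1) (z.2 i) (q + z.2 i • z.1) ∈ C} := ⟨_, rfl⟩
  have hcl : IsClosed {w : (Fin (m + 1) → ℝ) × ((Fin (m + 1) → ℝ) × (Fin (m + 2) → ℝ)) |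
      ∀ i, pt (m + 1) (w.2.2 i) (w.1 + w.2.2 i • w.2.1) ∈ C} := by
    rw [ofPred_forall]
    refine isClosed_iInter fun i => ?_
    refine hC.preimage (continuous_pt ?_ ?_)
    · fun_prop
    · fun_prop
  have hσ : IsSigmaCompact Γ := by
    have h1 := (isSigmaCompact_univ.of_isClosed_subset hcl (subset_univ _)).image continuous_snd
    convert! h1 using 1
    rw [hΓ]
    ext z
    constructor
    · rintro ⟨q, hq⟩
      exact ⟨(q, z), hq, rfl⟩
    · rintro ⟨⟨q, z'⟩, hq, rfl⟩
      exact ⟨q, hq⟩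
  have hΓm : MeasurableSet Γ := by
    obtain ⟨K, hK, hKΓ⟩ := hσ
    rw [← hKΓ]
    exact MeasurableSet.iUnion fun n => (hK n).measurableSet
  have h0 : ((volume : Measure (Fin (m + 1) → ℝ)).prod (volume : Measure (Fin (m + 2) → ℝ))) Γ
      = 0 := by
    rw [Measure.prod_apply_symm hΓm]
    rw [lintegral_eq_zero_iff (measurable_measure_prodMk_right hΓm)]
    filter_upwards [ae_injective (m + 2)] with t ht
    have h2 := hyp_vel hm ht (A := fun i => {y : Fin (m + 1) → ℝ | pt (m + 1) (t i) y ∈ C})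
      (fun i => hs (t i))
    refine measure_mono_null ?_ h2
    intro v hv
    rw [hΓ] at hv
    exact hv
  rw [Measure.measure_prod_null hΓm] at h0
  filter_upwards [h0] with v hv q
  have h3 : Set.pi univ (fun _ : Fin (m + 2) => {t : ℝ | pt (m + 1) t (q + t • v) ∈ C}) ⊆
      Prod.mk v ⁻¹' Γ := by
    intro t ht
    rw [hΓ]
    exact ⟨q, fun i => ht i (mem_univ i)⟩
  have h4 := measure_mono_null h3 hv
  rw [volume_pi, Measure.pi_pi] at h4
  simpa using h4

end closedcase

section whole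

variable {m : ℕ}

/-- The part of the zero set where some horizontal derivative does not vanish. -/
theorem hor_case (hm : 1 ≤ m) {O : Set (EuclideanSpace ℝ (Fin (m + 1 + 1)))}
    {g : EuclideanSpace ℝ (Fin (m + 1 + 1)) → ℝ} (hO : IsOpen O) (hg : ContDiffOn ℝ m g O) :
    ∀ᵐ v : Fin (m + 1) → ℝ, ∀ q : Fin (m + 1) → ℝ,
      volume {t : ℝ | pt (m + 1) t (q + t • v) ∈
        {x | x ∈ O ∧ g x = 0 ∧ ∃ y, fderiv ℝ g x (inc (m + 1) y) ≠ 0}} = 0 := by
  have hcd : ∀ x ∈ O, ContDiffAt ℝ m g x := fun x hx => hg.contDiffAt (hO.mem_nhds hx)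
  have hdf : ContinuousOn (fderiv ℝ g) O :=
    fun x hx => (continuousAt_fderiv hm (hcd x hx)).continuousWithinAt
  have hopen : IsOpen {L : EuclideanSpace ℝ (Fin (m + 1 + 1)) →L[ℝ] ℝ |
      ∃ y, L (inc (m + 1) y) ≠ 0} := by
    have : {L : EuclideanSpace ℝ (Fin (m + 1 + 1)) →L[ℝ] ℝ | ∃ y, L (inc (m + 1) y) ≠ 0} =
        ⋃ y, {L | L (inc (m + 1) y) ≠ 0} := by ext L; simp
    rw [this]
    refine isOpen_iUnion fun y => isOpen_ne_fun ?_ continuous_const
    fun_prop
  obtain ⟨O', hO'⟩ : ∃ O', O' = O ∩ fderiv ℝ g ⁻¹' {L | ∃ y, L (inc (m + 1) y) ≠ 0} := ⟨_, rfl⟩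
  have hO'o : IsOpen O' := by
    rw [hO']; exact hdf.isOpen_inter_preimage hO hopen
  obtain ⟨F, hFc, hFs, hFu, -⟩ := hO'o.exists_iUnion_isClosed
  have hFO : ∀ k, F k ⊆ O := fun k x hx => by
    have := hFs k hx
    rw [hO'] at this
    exact this.1
  have hCc : ∀ k, IsClosed (F k ∩ g ⁻¹' {0}) := fun k =>
    ((hg.continuousOn).mono (hFO k)).preimage_isClosed_of_isClosed (hFc k) isClosed_singleton
  have hslice : ∀ k t, ManyHyp m {y : Fin (m + 1) → ℝ | pt (m + 1) t y ∈ F k ∩ g ⁻¹' {0}} := by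
    intro k t
    have heq : (fun y : Fin (m + 1) → ℝ => pt (m + 1) t y) =
        fun y => pt (m + 1) t 0 + inc (m + 1) y := by
      funext y; exact pt_eq t y
    refine ⟨fun _ => {y | pt (m + 1) t y ∈ O}, fun _ y => g (pt (m + 1) t y),
      fun _ => ⟨?_, ?_⟩, ?_⟩
    · exact hO.preimage (continuous_pt continuous_const continuous_id)
    · have h1 : ContDiff ℝ m (fun y : Fin (m + 1) → ℝ => pt (m + 1) t y) := by
        rw [heq]
        exact contDiff_const.add (inc (m + 1)).contDiff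
      exact hg.comp h1.contDiffOn (fun y hy => hy)
    · rintro y ⟨hy1, hy2⟩
      have hyO' := hFs k hy1
      rw [hO'] at hyO'
      obtain ⟨hyO, w, hw⟩ := hyO'
      refine mem_iUnion.2 ⟨0, hyO, hy2, ?_⟩
      have h2 : HasFDerivAt (fun y : Fin (m + 1) → ℝ => pt (m + 1) t y) (inc (m + 1)) y := by
        rw [heq]
        exact ((inc (m + 1)).hasFDerivAt).const_add _
      have h3 : DifferentiableAt ℝ g (pt (m + 1) t y) := (hcd _ hyO).differentiableAt (by
        have : m ≠ 0 := by omega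
        exact_mod_cast this)
      have h4 := h3.hasFDerivAt.comp y h2
      intro h5
      have h6 : fderiv ℝ (fun y => g (pt (m + 1) t y)) y = _ := h4.fderiv
      rw [h6] at h5
      exact hw (by simpa using congrArg (fun L => L w) h5)
  have hae : ∀ᵐ v : Fin (m + 1) → ℝ, ∀ k, ∀ q : Fin (m + 1) → ℝ,
      volume {t : ℝ | pt (m + 1) t (q + t • v) ∈ F k ∩ g ⁻¹' {0}} = 0 :=
    ae_all_iff.2 fun k => closed_case hm (hCc k) (hslice k)
  filter_upwards [hae] with v hv q
  refine measure_mono_null ?_ (measure_iUnion_null fun k => hv k q)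
  rintro t ⟨h1, h2, h3⟩
  have h4 : pt (m + 1) t (q + t • v) ∈ ⋃ k, F k := by rw [hFu, hO']; exact ⟨h1, h3⟩
  obtain ⟨k, hk⟩ := mem_iUnion.1 h4
  exact mem_iUnion.2 ⟨k, hk, h2⟩

theorem whole_slopes (hm : 1 ≤ m) {N : Set (EuclideanSpace ℝ (Fin (m + 1 + 1)))}
    (hN : ManyHyp m N) :
    ∀ᵐ v : Fin (m + 1) → ℝ, ∀ q : Fin (m + 1) → ℝ,
      volume {t : ℝ | pt (m + 1) t (q + t • v) ∈ N} = 0 := by
  obtain ⟨O, g, hOg, hN⟩ := hN
  have hae := ae_all_iff.2 fun j => hor_case hm (hOg j).1 (hOg j).2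
  filter_upwards [hae] with v hv q
  have hdiff : ∀ j, ∀ x ∈ O j, DifferentiableAt ℝ (g j) x := fun j x hx =>
    ((hOg j).2.contDiffAt ((hOg j).1.mem_nhds hx)).differentiableAt (by
        have : m ≠ 0 := by omega
        exact_mod_cast this)
  refine measure_mono_null ?_ (measure_iUnion_null fun j => measure_union_null (hv j q)
    ((transversal_countable (hdiff j) (pt (m + 1) 0 q) (pt (m + 1) 1 v)).measure_zero _))
  intro t ht
  obtain ⟨j, h1, h2, h3⟩ := mem_iUnion.1 (hN ht)
  refine mem_iUnion.2 ⟨j, ?_⟩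
  by_cases h4 : fderiv ℝ (g j) (pt (m + 1) t (q + t • v)) (pt (m + 1) 1 v) = 0
  · left
    exact ⟨h1, h2, horizontal h3 h4⟩
  · right
    rw [pt_line] at h1 h2 h4
    exact ⟨h1, h2, h4⟩

/-- **Countable unions of hypersurfaces of class `C^(n-2)` in `ℝ^n` meet the lines of almost every
direction in null sets.** -/
theorem whole_sphere (hm : 1 ≤ m) {N : Set (EuclideanSpace ℝ (Fin (m + 1 + 1)))}
    (hN : ManyHyp m N) :
    ∀ᵐ e : sphere (0 : EuclideanSpace ℝ (Fin (m + 1 + 1))) 1
      ∂((volume : Measure (EuclideanSpace ℝ (Fin (m + 1 + 1)))).toSphere),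
      ∀ a, volume {t : ℝ | a + t • (e : EuclideanSpace ℝ (Fin (m + 1 + 1))) ∈ N} = 0 := by
  have h := whole_slopes hm hN
  rw [ae_iff] at h
  obtain ⟨B, hB⟩ : ∃ B : Set (Fin (m + 1) → ℝ), B = {v | ¬∀ q : Fin (m + 1) → ℝ,
    volume {t : ℝ | pt (m + 1) t (q + t • v) ∈ N} = 0} := ⟨_, rfl⟩
  rw [← hB] at h
  have h0B : volume (toMeasurable volume B) = 0 := by rw [measure_toMeasurable]; exact h
  rw [ae_iff]
  refine sphere_null (m + 1) _ (measurableSet_toMeasurable volume B) h0B ?_
  rintro e he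
  by_cases h0 : (e : EuclideanSpace ℝ (Fin (m + 1 + 1))) 0 = 0
  · left; exact h0
  · right
    apply subset_toMeasurable
    rw [hB]
    simp only [mem_ofPred_eq, not_forall] at he
    obtain ⟨a, ha⟩ := he
    have h1 := thick_line (m + 1) N a e h0 (pos_iff_ne_zero.2 ha)
    intro hcon
    have h2 := hcon (fun i => a (Fin.succ i) - a 0 *
      sl (m + 1) (e : EuclideanSpace ℝ (Fin (m + 1 + 1))) i)
    exact h1.ne' h2

end whole

end Pool.Agent.X84.Hyp
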